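import Pool.Agent.Q62.CC.Stm

/-!
# Project CC (helper62): job LIM, the free flow tends to its initial profile
-/

set_option autoImplicit false

open Set Filter Topology MeasureTheory
open scoped ENNReal ContDiff

namespace Pool.Agent.Q13.CC

open Pool.Agent.Q62.CC

section
variable {m : ℝ → ℝ} {x₀ x₁ α β M c : ℝ}

lemma sub_Ioo (hm : Wt m x₀ x₁ α β M c) : Icc α β ⊆ Ioo x₀ x₁ := fun _ hx =>
  ⟨lt_of_lt_of_le hm.h0 hx.1, lt_of_le_of_lt hx.2 hm.h1⟩

lemma m_cont (hm : Wt m x₀ x₁ α β M c) : ContinuousOn m (Icc α β) :=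
  hm.smooth.continuousOn.mono (sub_Ioo hm)

lemma m_low (hm : Wt m x₀ x₁ α β M c) : ∃ m₀ : ℝ, 0 < m₀ ∧ ∀ x ∈ Icc α β, m₀ ≤ m x := by
  obtain ⟨y, hy, hmin⟩ := isCompact_Icc.exists_isMinOn (nonempty_Icc.2 hm.hab.le) (m_cont hm)
  exact ⟨m y, hm.pos y (sub_Ioo hm hy), fun x hx => hmin hx⟩

lemma memLp_of_cont {g : ℝ → ℝ} (hg : ContinuousOn g (Icc α β)) :
    MemLp g 2 (volume.restrict (Icc α β)) := by
  obtain ⟨C, hC⟩ := isCompact_Icc.exists_bound_of_continuousOn hg
  exact MemLp.of_bound (hg.aestronglyMeasurable measurableSet_Icc) C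
    (ae_restrict_of_forall_mem measurableSet_Icc hC)

/-- the product of the weight, a square integrable function and a continuous function -/
lemma int_prod (hm : Wt m x₀ x₁ α β M c) {g φ : ℝ → ℝ}
    (hg : MemLp g 2 (volume.restrict (Icc α β))) (hφ : ContinuousOn φ (Icc α β)) :
    Integrable (fun x => m x * (g x * φ x)) (volume.restrict (Icc α β)) := by
  have h1 : IntegrableOn g (Icc α β) := hg.integrable one_le_two
  exact IntegrableOn.continuousOn_mul (m_cont hm) (h1.mul_continuousOn hφ isCompact_Icc)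
    isCompact_Icc

lemma int_sq (hm : Wt m x₀ x₁ α β M c) {g : ℝ → ℝ}
    (hg : MemLp g 2 (volume.restrict (Icc α β))) :
    Integrable (fun x => m x * g x ^ 2) (volume.restrict (Icc α β)) := by
  have h1 : IntegrableOn (fun x => g x ^ 2) (Icc α β) := hg.integrable_sq
  exact IntegrableOn.continuousOn_mul (m_cont hm) h1 isCompact_Icc

lemma lint_le (hm : Wt m x₀ x₁ α β M c) {m₀ : ℝ} (h0 : 0 < m₀) (hle : ∀ x ∈ Icc α β, m₀ ≤ m x)
    {g : ℝ → ℝ} (hg : MemLp g 2 (volume.restrict (Icc α β))) :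
    ∫⁻ x in Icc α β, ‖g x‖ₑ ^ 2 ≤ ENNReal.ofReal (m₀⁻¹ * ∫ x in Icc α β, m x * g x ^ 2) := by
  have hint : Integrable (fun x => m₀⁻¹ * (m x * g x ^ 2)) (volume.restrict (Icc α β)) :=
    (int_sq hm hg).const_mul _
  have hnn : 0 ≤ᵐ[volume.restrict (Icc α β)] fun x => m₀⁻¹ * (m x * g x ^ 2) :=
    ae_restrict_of_forall_mem measurableSet_Icc fun x hx => by
      have := h0.trans_le (hle x hx)
      show 0 ≤ m₀⁻¹ * (m x * g x ^ 2)
      positivity
  rw [← integral_const_mul, ofReal_integral_eq_lintegral_ofReal hint hnn]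
  refine setLIntegral_mono_ae' measurableSet_Icc (Eventually.of_forall fun x hx => ?_)
  rw [Real.enorm_eq_ofReal_abs, ← ENNReal.ofReal_pow (abs_nonneg _), sq_abs]
  refine ENNReal.ofReal_le_ofReal ?_
  rw [← mul_assoc]
  refine le_mul_of_one_le_left (sq_nonneg _) ?_
  rw [inv_mul_eq_div, one_le_div h0]
  exact hle x hx

theorem t_LIM (hp1 : S_CVG) (hODE : S_ODE) : S_LIM := by
  intro m x₀ x₁ α β M c hm ι _ l e A hs f hf
  obtain ⟨m₀, h0, hle⟩ := m_low hm
  have hφ : ∀ i, ContinuousOn (fun x => e i * Vz m α β (-l i) x) (Icc α β) := by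
    intro i x hx
    have h1 := ((hODE m x₀ x₁ α β M c hm (-l i)).2.2.2.2 x (sub_Ioo hm hx)).2.2.2.2.1
    exact (h1.continuousAt.const_mul (e i)).continuousWithinAt
  have hco : ∀ t : ℝ, 0 < t → ∀ i,
      co m α β l e (fun x => VF m α β l e f t x - f x) i =
        co m α β l e f i * (Real.exp (-(l i * t)) - 1) := by
    intro t ht i
    obtain ⟨-, hc1, -, hc3⟩ := hp1 m x₀ x₁ α β M c hm ι l e A hs f hf t ht
    have h3 := hc3 i
    have e1 : co m α β l e (fun x => VF m α β l e f t x - f x) i =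
        co m α β l e (VF m α β l e f t) i - co m α β l e f i := by
      unfold co
      rw [← integral_sub (int_prod hm (memLp_of_cont hc1) (hφ i)) (int_prod hm hf (hφ i))]
      refine integral_congr_ae (Eventually.of_forall fun x => ?_)
      simp only
      ring
    rw [e1, h3]
    ring
  have hpars : ∀ t : ℝ, 0 < t →
      ∫ x in Icc α β, m x * (VF m α β l e f t x - f x) ^ 2 =
        ∑' i, (co m α β l e f i * (Real.exp (-(l i * t)) - 1)) ^ 2 := by
    intro t ht
    obtain ⟨-, hc1, -, -⟩ := hp1 m x₀ x₁ α β M c hm ι l e A hs f hf t ht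
    have h1 := hs.pars (fun x => VF m α β l e f t x - f x) ((memLp_of_cont hc1).sub hf)
    rw [← h1.tsum_eq]
    exact tsum_congr fun i => by rw [← hco t ht i]; rfl
  have hsum : Summable fun i => co m α β l e f i ^ 2 := (hs.pars f hf).summable
  have hlim : Tendsto (fun t : ℝ => ∑' i, (co m α β l e f i * (Real.exp (-(l i * t)) - 1)) ^ 2)
      (𝓝[>] 0) (𝓝 (∑' _ : ι, (0 : ℝ))) := by
    refine tendsto_tsum_of_dominated_convergence (bound := fun i => co m α β l e f i ^ 2) hsum
      (fun i => ?_) ?_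
    · have h1 : Tendsto (fun t : ℝ => (co m α β l e f i * (Real.exp (-(l i * t)) - 1)) ^ 2) (𝓝 0)
          (𝓝 ((co m α β l e f i * (Real.exp (-(l i * 0)) - 1)) ^ 2)) := by
        apply Continuous.tendsto
        fun_prop
      rw [mul_zero, neg_zero, Real.exp_zero, sub_self, mul_zero, zero_pow two_ne_zero] at h1
      exact h1.mono_left nhdsWithin_le_nhds
    · filter_upwards [self_mem_nhdsWithin] with t ht i
      have ht' : (0 : ℝ) < t := ht
      rw [Real.norm_of_nonneg (sq_nonneg _), mul_pow]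
      refine mul_le_of_le_one_right (sq_nonneg _) ?_
      have h2 : Real.exp (-(l i * t)) ≤ 1 := by
        rw [Real.exp_le_one_iff]
        have := mul_pos (hs.lpos i) ht'
        linarith
      have h3 := Real.exp_pos (-(l i * t))
      nlinarith
  rw [tsum_zero] at hlim
  have hup : Tendsto (fun t : ℝ => ENNReal.ofReal
      (m₀⁻¹ * ∫ x in Icc α β, m x * (VF m α β l e f t x - f x) ^ 2)) (𝓝[>] 0) (𝓝 0) := by
    have h1 : Tendsto (fun t : ℝ => ENNReal.ofReal
        (m₀⁻¹ * ∑' i, (co m α β l e f i * (Real.exp (-(l i * t)) - 1)) ^ 2)) (𝓝[>] 0) (𝓝 0) := by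
      have h2 := ENNReal.tendsto_ofReal (hlim.const_mul m₀⁻¹)
      rwa [mul_zero, ENNReal.ofReal_zero] at h2
    refine h1.congr' ?_
    filter_upwards [self_mem_nhdsWithin] with t ht
    rw [hpars t ht]
  refine tendsto_of_tendsto_of_tendsto_of_le_of_le' tendsto_const_nhds hup
    (Eventually.of_forall fun _ => bot_le) ?_
  filter_upwards [self_mem_nhdsWithin] with t ht
  obtain ⟨-, hc1, -, -⟩ := hp1 m x₀ x₁ α β M c hm ι l e A hs f hf t ht
  exact lint_le hm h0 hle ((memLp_of_cont hc1).sub hf)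

end

end Pool.Agent.Q13.CC
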